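import Pool.Agent.Helper71.UQ.Goals

/-!
Packet UQ-CNT: the number of keys.
-/

set_option autoImplicit false

namespace Pool.Agent.Helper79.UQ.PkCNT

open Pool.Agent.Helper71.UQ Finset

/-- The vectors with sum at most `d`. -/
def Es (d : ℕ) : Finset (Fin d → ℕ) :=
  (Fintype.piFinset fun _ : Fin d => Finset.range (d + 1)).filter fun e => ∑ i, e i ≤ d

lemma mem_Es {d : ℕ} {e : Fin d → ℕ} (h : ∑ i, e i ≤ d) : e ∈ Es d := by
  unfold Es
  rw [Finset.mem_filter, Fintype.mem_piFinset]
  refine ⟨fun i => ?_, h⟩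
  rw [Finset.mem_range]
  have : e i ≤ ∑ i, e i := Finset.single_le_sum (fun _ _ => Nat.zero_le _) (Finset.mem_univ i)
  omega

lemma geo_le (n : ℕ) : ∑ k ∈ Finset.range n, (1 / 2 : ℝ) ^ k ≤ 2 := by
  rw [geom_sum_eq (by norm_num)]
  have : (0 : ℝ) ≤ (1 / 2 : ℝ) ^ n := by positivity
  have h2 : ((1 / 2 : ℝ) ^ n - 1) / (1 / 2 - 1) = 2 - 2 * (1 / 2 : ℝ) ^ n := by
    field_simp
    ring
  rw [h2]
  linarith

lemma card_Es (d : ℕ) : (Es d).card ≤ 4 ^ d := by
  have h1 : ((Es d).card : ℝ) * (1 / 2 : ℝ) ^ d ≤ ∑ e ∈ Es d, ∏ i, (1 / 2 : ℝ) ^ (e i) := by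
    rw [← nsmul_eq_mul, ← Finset.sum_const]
    refine Finset.sum_le_sum fun e he => ?_
    rw [Finset.prod_pow_eq_pow_sum]
    have he' : ∑ i, e i ≤ d := (Finset.mem_filter.mp he).2
    exact pow_le_pow_of_le_one (by norm_num) (by norm_num) he'
  have h2 : ∑ e ∈ Es d, ∏ i, (1 / 2 : ℝ) ^ (e i) ≤
      ∑ e ∈ (Fintype.piFinset fun _ : Fin d => Finset.range (d + 1)), ∏ i, (1 / 2 : ℝ) ^ (e i) := by
    refine Finset.sum_le_sum_of_subset_of_nonneg (Finset.filter_subset _ _) fun e _ _ => ?_
    exact Finset.prod_nonneg fun i _ => by positivity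
  have h3 : ∑ e ∈ (Fintype.piFinset fun _ : Fin d => Finset.range (d + 1)),
      ∏ i, (1 / 2 : ℝ) ^ (e i) = ∏ _i : Fin d, ∑ k ∈ Finset.range (d + 1), (1 / 2 : ℝ) ^ k := by
    rw [Finset.prod_univ_sum]
  have h4 : ∏ _i : Fin d, ∑ k ∈ Finset.range (d + 1), (1 / 2 : ℝ) ^ k ≤ 2 ^ d := by
    rw [Finset.prod_const, Finset.card_univ, Fintype.card_fin]
    refine pow_le_pow_left₀ (Finset.sum_nonneg fun k _ => by positivity) (geo_le _) d
  have h5 : ((Es d).card : ℝ) * (1 / 2 : ℝ) ^ d ≤ 2 ^ d := by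
    linarith
  have h6 : ((Es d).card : ℝ) ≤ 4 ^ d := by
    have h7 : ((Es d).card : ℝ) = ((Es d).card : ℝ) * (1 / 2 : ℝ) ^ d * 2 ^ d := by
      rw [mul_assoc, ← mul_pow]
      norm_num
    rw [h7]
    calc ((Es d).card : ℝ) * (1 / 2 : ℝ) ^ d * 2 ^ d ≤ 2 ^ d * 2 ^ d := by gcongr
      _ = 4 ^ d := by rw [← mul_pow]; norm_num
  exact_mod_cast h6

lemma mem_Fs {d J : ℕ} {j : Fin d → ℕ} (hj : j ∈ Fs d J) : ∑ i, 2 ^ (j i) ≤ 2 ^ J * d :=
  (Finset.mem_filter.mp hj).2

lemma sum_e {d J : ℕ} {j : Fin d → ℕ} (hj : j ∈ Fs d J) : ∑ i, (j i - J) ≤ d := by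
  have h1 := mem_Fs hj
  have h2 : 2 ^ J * ∑ i, (j i - J) ≤ ∑ i, 2 ^ (j i) := by
    rw [Finset.mul_sum]
    refine Finset.sum_le_sum fun i _ => ?_
    rcases Nat.lt_or_ge J (j i) with h | h
    · obtain ⟨t, ht⟩ := Nat.exists_eq_add_of_lt h
      have e1 : j i - J = t + 1 := by omega
      have e2 : j i = J + (t + 1) := by omega
      rw [e1, e2, pow_add]
      exact Nat.mul_le_mul_left _ (Nat.lt_two_pow_self).le
    · rw [Nat.sub_eq_zero_of_le h]
      simp
  have h3 : 2 ^ J * ∑ i, (j i - J) ≤ 2 ^ J * d := h2.trans h1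
  exact Nat.le_of_mul_le_mul_left h3 (by positivity)

/-- The second entries. -/
def Bs {d : ℕ} (J : ℕ) (T T' : Finset (Fin d)) : Finset (Fin d → ℕ) :=
  Fintype.piFinset fun i => if i ∈ T \ T' then Finset.range (J + 1) else {0}

/-- The third entries. -/
def Cs {d : ℕ} (J τ : ℕ) (T : Finset (Fin d)) : Finset (Fin d → ℕ) :=
  Fintype.piFinset fun i => if i ∈ T then {0} else Finset.range (J / τ + 2)

lemma card_Bs {d : ℕ} (J : ℕ) (T T' : Finset (Fin d)) (h : T' ⊆ T) :
    (Bs J T T').card = (J + 1) ^ (T.card - T'.card) := by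
  unfold Bs
  rw [Fintype.card_piFinset, ← Finset.card_sdiff_of_subset h]
  have h1 : ∀ i : Fin d, (if i ∈ T \ T' then Finset.range (J + 1) else {0}).card =
      if i ∈ T \ T' then J + 1 else 1 := by
    intro i
    split_ifs <;> simp
  rw [Finset.prod_congr rfl fun i _ => h1 i, Finset.prod_ite, Finset.prod_const_one, mul_one,
    Finset.prod_const]
  congr 2
  ext i
  simp

lemma card_Cs {d : ℕ} (J τ : ℕ) (T : Finset (Fin d)) :
    (Cs J τ T).card = (J / τ + 2) ^ (d - T.card) := by
  unfold Cs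
  rw [Fintype.card_piFinset]
  have h1 : ∀ i : Fin d, (if i ∈ T then ({0} : Finset ℕ) else Finset.range (J / τ + 2)).card =
      if i ∈ T then 1 else J / τ + 2 := by
    intro i
    split_ifs <;> simp
  rw [Finset.prod_congr rfl fun i _ => h1 i, Finset.prod_ite, Finset.prod_const_one, one_mul,
    Finset.prod_const]
  congr 1
  have h2 : Finset.filter (fun i => i ∉ T) Finset.univ = Tᶜ := by
    ext i
    simp
  rw [h2, Finset.card_compl, Fintype.card_fin]

/-- The key of a triple. -/
def rebuild {d : ℕ} (J τ : ℕ) (T T' : Finset (Fin d)) (p : (Fin d → ℕ) × (Fin d → ℕ) × (Fin d → ℕ)) :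
    Fin d → ℕ :=
  fun i => if i ∈ T' then 0 else if i ∈ T then p.2.1 i + p.1 i else
    if p.2.2 i = J / τ + 1 then J + p.1 i else τ * p.2.2 i

/-- Packet UQ-CNT. -/
theorem thm : G_CNT := by
  intro d J τ T T' hτ hτJ hTT
  refine ⟨?_, fun j hj => ?_⟩
  · have hsub : ((Fs d J).image (key T (gJ τ J))).image (drop T') ⊆
        (Es d ×ˢ (Bs J T T' ×ˢ Cs J τ T)).image (rebuild J τ T T') := by
      intro κ hκ
      obtain ⟨κ1, hκ1, rfl⟩ := Finset.mem_image.mp hκ
      obtain ⟨j, hj, rfl⟩ := Finset.mem_image.mp hκ1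
      refine Finset.mem_image.mpr ⟨(fun i => j i - J,
        fun i => if i ∈ T \ T' then min (j i) J else 0,
        fun i => if i ∈ T then 0 else if j i < J then j i / τ else J / τ + 1), ?_, ?_⟩
      · rw [Finset.mem_product, Finset.mem_product]
        refine ⟨mem_Es (sum_e hj), ?_, ?_⟩
        · unfold Bs
          rw [Fintype.mem_piFinset]
          intro i
          by_cases h : i ∈ T \ T'
          · simp only [if_pos h, Finset.mem_range]
            have := min_le_right (j i) J
            omega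
          · simp only [if_neg h, Finset.mem_singleton]
        · unfold Cs
          rw [Fintype.mem_piFinset]
          intro i
          by_cases h : i ∈ T
          · simp only [if_pos h, Finset.mem_singleton]
          · simp only [if_neg h, Finset.mem_range]
            by_cases h2 : j i < J
            · rw [if_pos h2]
              have : j i / τ ≤ J / τ := Nat.div_le_div_right h2.le
              omega
            · rw [if_neg h2]
              omega
      · funext i
        unfold rebuild drop key gJ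
        by_cases h' : i ∈ T'
        · simp only [if_pos h']
        · by_cases h : i ∈ T
          · have h3 : i ∈ T \ T' := Finset.mem_sdiff.mpr ⟨h, h'⟩
            simp only [if_neg h', if_pos h, if_pos h3]
            rcases le_total (j i) J with h4 | h4
            · rw [min_eq_left h4]; omega
            · rw [min_eq_right h4]; omega
          · simp only [if_neg h', if_neg h]
            by_cases h2 : j i < J
            · simp only [if_pos h2]
              have h5 : j i / τ ≤ J / τ := Nat.div_le_div_right h2.le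
              rw [if_neg (by omega)]
            · simp only [if_neg h2]
              simp only [if_true]
              omega
    calc (((Fs d J).image (key T (gJ τ J))).image (drop T')).card
        ≤ ((Es d ×ˢ (Bs J T T' ×ˢ Cs J τ T)).image (rebuild J τ T T')).card :=
          Finset.card_le_card hsub
      _ ≤ (Es d ×ˢ (Bs J T T' ×ˢ Cs J τ T)).card := Finset.card_image_le
      _ = (Es d).card * ((Bs J T T').card * (Cs J τ T).card) := by
          rw [Finset.card_product, Finset.card_product]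
      _ ≤ 4 ^ d * ((Bs J T T').card * (Cs J τ T).card) := Nat.mul_le_mul_right _ (card_Es d)
      _ = 4 ^ d * (J + 1) ^ (T.card - T'.card) * (J / τ + 2) ^ (d - T.card) := by
          rw [card_Bs J T T' hTT, card_Cs, mul_assoc]
  · have h1 := sum_e hj
    calc ∑ i, (j i + 1 + τ) ≤ ∑ i, ((j i - J) + (J + 1 + τ)) :=
          Finset.sum_le_sum fun i _ => by omega
      _ = ∑ i, (j i - J) + d * (J + 1 + τ) := by
          rw [Finset.sum_add_distrib, Finset.sum_const, Finset.card_univ, Fintype.card_fin,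
            smul_eq_mul]
      _ ≤ d + d * (J + 1 + τ) := Nat.add_le_add_right h1 _
      _ = d * (J + 2 + τ) := by ring

end Pool.Agent.Helper79.UQ.PkCNT
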